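import Pool.Agent.W46.HD.Stm

/-!
# Part HD-GEO1: counting lines
-/

set_option autoImplicit false

open Finset

namespace Pool.Agent.W975.HD

open Pool.Agent.W46.HD

variable {Ω : Type} {d n : ℕ}

theorem cardbox (D : Ω → Fin d → ℝ) (hD : IsFam n D) (T : Finset Ω) (a : Fin d → ℤ) (k : ℕ)
    (h : ∀ ω ∈ T, ∀ i, a i ≤ ⌊(n : ℝ) * D ω i⌋ ∧ ⌊(n : ℝ) * D ω i⌋ ≤ a i + k) :
    T.card ≤ (k + 1) ^ d := by
  classical
  have h1 : T.card = (T.image fun ω => fun i => ⌊(n : ℝ) * D ω i⌋).card := by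
    rw [Finset.card_image_of_injective]
    intro ω ω' hω
    exact hD.inj ω ω' fun i => congrFun hω i
  rw [h1]
  refine (Finset.card_le_card (t := Fintype.piFinset fun i => Icc (a i) (a i + k)) ?_).trans ?_
  · intro f hf
    obtain ⟨ω, hω, rfl⟩ := Finset.mem_image.1 hf
    rw [Fintype.mem_piFinset]
    intro i
    rw [Finset.mem_Icc]
    exact h ω hω i
  · rw [Fintype.card_piFinset]
    have : ∀ i, (Icc (a i) (a i + (k : ℤ))).card = k + 1 := by
      intro i
      rw [Int.card_Icc]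
      omega
    simp [this]

theorem sep (D : Ω → Fin d → ℝ) (hD : IsFam n D) (T : Finset Ω) (R : ℝ) (hR : 0 ≤ R)
    (h : ∀ ω ∈ T, ∀ ω' ∈ T, ∀ i, (n : ℝ) * |D ω i - D ω' i| ≤ R) :
    (T.card : ℝ) ≤ (R + 2) ^ d := by
  rcases T.eq_empty_or_nonempty with rfl | hT
  · simp only [Finset.card_empty, Nat.cast_zero]
    positivity
  have hmin : ∀ i, ∃ ω ∈ T, ∀ ω' ∈ T, ⌊(n : ℝ) * D ω i⌋ ≤ ⌊(n : ℝ) * D ω' i⌋ := fun i =>
    Finset.exists_min_image T (fun ω => ⌊(n : ℝ) * D ω i⌋) hT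
  choose w hw hmin using hmin
  have h1 := cardbox D hD T (fun i => ⌊(n : ℝ) * D (w i) i⌋) ⌈R⌉₊ (fun ω hω i => by
    refine ⟨hmin i ω hω, ?_⟩
    have h2 := h ω hω (w i) (hw i) i
    have h3 : (n : ℝ) * D ω i - (n : ℝ) * D (w i) i ≤ R := by
      have h4 := le_abs_self (D ω i - D (w i) i)
      have h5 : (0 : ℝ) ≤ n := Nat.cast_nonneg n
      nlinarith [mul_le_mul_of_nonneg_left h4 h5]
    have h6 := Int.floor_le ((n : ℝ) * D ω i)
    have h7 := Int.lt_floor_add_one ((n : ℝ) * D (w i) i)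
    have h8 := Nat.le_ceil R
    have h9 : ((⌊(n : ℝ) * D ω i⌋ : ℤ) : ℝ) < ((⌊(n : ℝ) * D (w i) i⌋ + (⌈R⌉₊ : ℤ) + 1 : ℤ) : ℝ) := by
      push_cast
      linarith
    have h10 : ⌊(n : ℝ) * D ω i⌋ < ⌊(n : ℝ) * D (w i) i⌋ + (⌈R⌉₊ : ℤ) + 1 := by exact_mod_cast h9
    omega)
  have h2 : (T.card : ℝ) ≤ ((⌈R⌉₊ : ℝ) + 1) ^ d := by exact_mod_cast h1
  refine h2.trans (pow_le_pow_left₀ (by positivity) ?_ d)
  have := Nat.ceil_lt_add_one hR
  linarith

/-- from the cardinality to its logarithm -/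
theorem log_card {T : Finset Ω} {x c : ℝ} (hx : 1 ≤ x) (hc : Real.log x ≤ c)
    (h : (T.card : ℝ) ≤ x ^ d) : Real.log (T.card : ℝ) ≤ d * c := by
  have hc0 : 0 ≤ c := (Real.log_nonneg hx).trans hc
  rcases T.eq_empty_or_nonempty with rfl | hT
  · simp only [Finset.card_empty, Nat.cast_zero, Real.log_zero]
    positivity
  have hpos : (0 : ℝ) < T.card := by exact_mod_cast hT.card_pos
  calc Real.log (T.card : ℝ) ≤ Real.log (x ^ d) := Real.log_le_log hpos h
    _ = d * Real.log x := Real.log_pow _ _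
    _ ≤ d * c := mul_le_mul_of_nonneg_left hc (Nat.cast_nonneg _)

theorem log4 : Real.log 4 ≤ 3 := by
  have h : Real.log 4 = 2 * Real.log 2 := by
    rw [show (4 : ℝ) = 2 ^ 2 by norm_num, Real.log_pow]
    norm_num
  have := Real.log_two_lt_d9
  rw [h]
  linarith

/-- all lines -/
theorem all_card (D : Ω → Fin d → ℝ) (hD : IsFam n D) (T : Finset Ω) :
    (T.card : ℝ) ≤ (2 * (n : ℝ)) ^ d := by
  have hn : (1 : ℝ) ≤ n := by exact_mod_cast hD.pos
  have h1 := cardbox D hD T (fun _ => 0) n (fun ω _ i => by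
    refine ⟨Int.floor_nonneg.2 (mul_nonneg (by linarith) (hD.lo ω i)), ?_⟩
    have h2 := Int.floor_le ((n : ℝ) * D ω i)
    have h3 : (n : ℝ) * D ω i ≤ n := mul_le_of_le_one_right (by linarith) (hD.hi ω i)
    have h4 : ((⌊(n : ℝ) * D ω i⌋ : ℤ) : ℝ) ≤ ((n : ℤ) : ℝ) := by push_cast; linarith
    have h5 : ⌊(n : ℝ) * D ω i⌋ ≤ (n : ℤ) := by exact_mod_cast h4
    simpa using h5)
  have h2 : (T.card : ℝ) ≤ ((n : ℝ) + 1) ^ d := by exact_mod_cast h1
  exact h2.trans (pow_le_pow_left₀ (by positivity) (by linarith) d)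

theorem log_all (D : Ω → Fin d → ℝ) (hD : IsFam n D) (T : Finset Ω) {c : ℝ}
    (hc : 1 + Real.log n ≤ c) : Real.log (T.card : ℝ) ≤ d * c := by
  have hn : (1 : ℝ) ≤ n := by exact_mod_cast hD.pos
  refine log_card (x := 2 * (n : ℝ)) (by linarith) ?_ (all_card D hD T)
  rw [Real.log_mul (by norm_num) (by positivity)]
  have := Real.log_two_lt_d9
  linarith

theorem G0 : S_G0 := by
  intro d n Ω _ D hD
  exact log_all D hD Finset.univ le_rfl

/-- two numbers with the same integral part -/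
theorem floor_abs {x y : ℝ} (h : ⌊x⌋ = ⌊y⌋) : |x - y| < 1 := by
  rw [abs_lt]
  have h1 := Int.floor_le x
  have h2 := Int.lt_floor_add_one x
  have h3 := Int.floor_le y
  have h4 := Int.lt_floor_add_one y
  rw [h] at h1 h2
  constructor <;> linarith

/-- the separation estimate -/
theorem sep_log (D : Ω → Fin d → ℝ) (hD : IsFam n D) (T : Finset Ω) (κ m : ℝ) (hκ : 0 < κ)
    (h : ∀ ω ∈ T, ∀ ω' ∈ T, ∀ i, κ * |D ω i - D ω' i| ≤ 2) (hm : 1 ≤ m) (hmn : (n : ℝ) / κ ≤ m) :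
    Real.log (T.card : ℝ) ≤ d * (3 + Real.log m) := by
  have hn : (1 : ℝ) ≤ n := by exact_mod_cast hD.pos
  have h1 := sep D hD T (2 * ((n : ℝ) / κ)) (by positivity) (fun ω hω ω' hω' i => by
    have h2 := h ω hω ω' hω' i
    have h3 : (n : ℝ) * |D ω i - D ω' i| = (n / κ) * (κ * |D ω i - D ω' i|) := by
      field_simp
    rw [h3]
    have h4 : 0 ≤ (n : ℝ) / κ := by positivity
    nlinarith [mul_le_mul_of_nonneg_left h2 h4])
  refine log_card (x := 4 * m) (by linarith) ?_ (h1.trans ?_)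
  · rw [Real.log_mul (by norm_num) (by positivity)]
    have := log4
    linarith
  · refine pow_le_pow_left₀ (by positivity) ?_ d
    linarith

theorem G1 : S_G1 := by
  intro d n Ω _ A D hD i j hi hj c c' T hT
  have hn : (1 : ℝ) ≤ n := by exact_mod_cast hD.pos
  by_cases hij : i = j
  · subst hij
    have h1 : psi n i i = Real.log n := by
      unfold psi
      simp
    rw [h1]
    exact log_all D hD T (by linarith)
  · have hne : (i : ℝ) - j ≠ 0 := by
      intro h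
      apply hij
      have : (i : ℝ) = j := by linarith
      exact_mod_cast this
    have h1 : 1 ≤ |(i : ℝ) - j| := by
      have h2 : ((i : ℤ) - j) ≠ 0 := by omega
      have h3 := Int.one_le_abs h2
      have h4 : ((1 : ℤ) : ℝ) ≤ ((|(i : ℤ) - j| : ℤ) : ℝ) := by exact_mod_cast h3
      push_cast at h4
      exact h4
    have h2 : |(i : ℝ) - j| ≤ n := by
      have hi' : (i : ℝ) < n := by exact_mod_cast hi
      have hj' : (j : ℝ) < n := by exact_mod_cast hj
      have h3 : (0 : ℝ) ≤ i := Nat.cast_nonneg i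
      have h4 : (0 : ℝ) ≤ j := Nat.cast_nonneg j
      rw [abs_le]
      constructor <;> linarith
    have h3 : psi n i j = Real.log ((n : ℝ) / |(i : ℝ) - j|) := by
      unfold psi
      rw [max_eq_right h1]
    rw [h3]
    refine sep_log D hD T |(i : ℝ) - j| _ (by linarith) ?_ ?_ le_rfl
    · intro ω hω ω' hω' l
      obtain ⟨a1, a2⟩ := hT ω hω
      obtain ⟨b1, b2⟩ := hT ω' hω'
      have e1 : ⌊A ω l + (i : ℝ) * D ω l⌋ = ⌊A ω' l + (i : ℝ) * D ω' l⌋ :=
        (congrFun a1 l).trans (congrFun b1 l).symm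
      have e2 : ⌊A ω l + (j : ℝ) * D ω l⌋ = ⌊A ω' l + (j : ℝ) * D ω' l⌋ :=
        (congrFun a2 l).trans (congrFun b2 l).symm
      have f1 := floor_abs e1
      have f2 := floor_abs e2
      rw [← abs_mul]
      have e3 : ((i : ℝ) - j) * (D ω l - D ω' l) =
          (A ω l + (i : ℝ) * D ω l - (A ω' l + (i : ℝ) * D ω' l)) -
          (A ω l + (j : ℝ) * D ω l - (A ω' l + (j : ℝ) * D ω' l)) := by ring
      rw [e3]
      exact (abs_sub _ _).trans (by linarith)
    · rw [le_div_iff₀ (by linarith)]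
      linarith

theorem G3 : S_G3 := by
  intro d n Ω _ D hD k c0 c T hT
  have hn : (1 : ℝ) ≤ n := by exact_mod_cast hD.pos
  by_cases hk : k = 0
  · subst hk
    have h1 : phi n 0 = Real.log n := by
      unfold phi
      simp [hn]
    rw [h1]
    exact log_all D hD T (by linarith)
  · have h1 : 1 ≤ |(k : ℝ)| := by
      have h3 := Int.one_le_abs hk
      have h4 : ((1 : ℤ) : ℝ) ≤ ((|k| : ℤ) : ℝ) := by exact_mod_cast h3
      push_cast at h4
      exact h4
    have h3 : phi n k = Real.log (max 1 ((n : ℝ) / |(k : ℝ)|)) := by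
      unfold phi
      rw [max_eq_right h1]
    rw [h3]
    refine sep_log D hD T |(k : ℝ)| _ (by linarith) ?_ (le_max_left _ _) (le_max_right _ _)
    intro ω hω ω' hω' l
    obtain ⟨u, hu1, hu2⟩ := hT ω hω
    obtain ⟨u', hu1', hu2'⟩ := hT ω' hω'
    have f1 := floor_abs ((hu1 l).trans (hu1' l).symm)
    have f2 := floor_abs ((hu2 l).trans (hu2' l).symm)
    rw [← abs_mul]
    have e3 : (k : ℝ) * (D ω l - D ω' l) =
        (u l + (k : ℝ) * D ω l - (u' l + (k : ℝ) * D ω' l)) - (u l - u' l) := by ring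
    rw [e3]
    exact (abs_sub _ _).trans (by linarith)

end Pool.Agent.W975.HD
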