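import Mathlib
import Pool.Agent.W669.HD.Stm

/-!
# Thorpe's lemma in dimension four
-/

set_option autoImplicit false
set_option maxHeartbeats 1000000

namespace Pool.Agent.W975.HD

open Finset Pool.Agent.W669.HD

theorem det4 (M : Matrix (Fin 4) (Fin 4) ℝ) : M.det =
    M 0 0 * (M 1 1 * (M 2 2 * M 3 3 - M 2 3 * M 3 2) - M 1 2 * (M 2 1 * M 3 3 - M 2 3 * M 3 1) +
      M 1 3 * (M 2 1 * M 3 2 - M 2 2 * M 3 1)) -
    M 0 1 * (M 1 0 * (M 2 2 * M 3 3 - M 2 3 * M 3 2) - M 1 2 * (M 2 0 * M 3 3 - M 2 3 * M 3 0) +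
      M 1 3 * (M 2 0 * M 3 2 - M 2 2 * M 3 0)) +
    M 0 2 * (M 1 0 * (M 2 1 * M 3 3 - M 2 3 * M 3 1) - M 1 1 * (M 2 0 * M 3 3 - M 2 3 * M 3 0) +
      M 1 3 * (M 2 0 * M 3 1 - M 2 1 * M 3 0)) -
    M 0 3 * (M 1 0 * (M 2 1 * M 3 2 - M 2 2 * M 3 1) - M 1 1 * (M 2 0 * M 3 2 - M 2 2 * M 3 0) +
      M 1 2 * (M 2 0 * M 3 1 - M 2 1 * M 3 0)) := by
  rw [Matrix.det_succ_row_zero]
  simp only [Fin.sum_univ_four, Matrix.det_fin_three, Matrix.submatrix_apply]
  simp [Fin.succAbove, Fin.succ, Fin.lt_def]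
  ring

/-- the indicator -/
def dl (i a : Fin 4) : ℝ := if i = a then 1 else 0

theorem eps_dl (i j k l : Fin 4) : eps i j k l =
    dl i 0 * (dl j 1 * (dl k 2 * dl l 3 - dl k 3 * dl l 2) -
      dl j 2 * (dl k 1 * dl l 3 - dl k 3 * dl l 1) +
      dl j 3 * (dl k 1 * dl l 2 - dl k 2 * dl l 1)) -
    dl i 1 * (dl j 0 * (dl k 2 * dl l 3 - dl k 3 * dl l 2) -
      dl j 2 * (dl k 0 * dl l 3 - dl k 3 * dl l 0) +
      dl j 3 * (dl k 0 * dl l 2 - dl k 2 * dl l 0)) +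
    dl i 2 * (dl j 0 * (dl k 1 * dl l 3 - dl k 3 * dl l 1) -
      dl j 1 * (dl k 0 * dl l 3 - dl k 3 * dl l 0) +
      dl j 3 * (dl k 0 * dl l 1 - dl k 1 * dl l 0)) -
    dl i 3 * (dl j 0 * (dl k 1 * dl l 2 - dl k 2 * dl l 1) -
      dl j 1 * (dl k 0 * dl l 2 - dl k 2 * dl l 0) +
      dl j 2 * (dl k 0 * dl l 1 - dl k 1 * dl l 0)) := by
  unfold eps
  rw [det4]
  rfl

theorem eps_vals (i j k l : Fin 4) : eps i j k l =
    (((j : ℕ) : ℝ) - (i : ℕ)) * (((k : ℕ) : ℝ) - (i : ℕ)) * (((l : ℕ) : ℝ) - (i : ℕ)) *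
      (((k : ℕ) : ℝ) - (j : ℕ)) * (((l : ℕ) : ℝ) - (j : ℕ)) * (((l : ℕ) : ℝ) - (k : ℕ)) / 12 := by
  rw [eps_dl]
  fin_cases i <;> fin_cases j <;> fin_cases k <;> fin_cases l <;> simp [dl] <;> norm_num

/-- the Pfaffian -/
def pf (x : Fin 4 → Fin 4 → ℝ) : ℝ := x 0 1 * x 2 3 - x 0 2 * x 1 3 + x 0 3 * x 1 2

theorem q_eq (x : Fin 4 → Fin 4 → ℝ) (hx : ∀ i j, x j i = - x i j) :
    ∑ i, ∑ j, ∑ k, ∑ l, eps i j k l * (x i j * x k l) = 8 * pf x := by
  unfold pf
  simp only [eps_vals]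
  simp only [Fin.sum_univ_four]
  rw [hx 0 1, hx 0 2, hx 0 3, hx 1 2, hx 1 3, hx 2 3]
  norm_num
  ring

theorem diag_zero {x : Fin 4 → Fin 4 → ℝ} (hx : ∀ i j, x j i = - x i j) (i : Fin 4) :
    x i i = 0 := by
  have := hx i i
  linarith

/-- the Grassmann-Plücker relation -/
theorem pluck {x : Fin 4 → Fin 4 → ℝ} (hx : ∀ i j, x j i = - x i j) (h : pf x = 0)
    (i j k l : Fin 4) : x i j * x k l - x i k * x j l + x i l * x j k = 0 := by
  unfold pf at h
  have h10 := hx 0 1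
  have h20 := hx 0 2
  have h30 := hx 0 3
  have h21 := hx 1 2
  have h31 := hx 1 3
  have h32 := hx 2 3
  have d0 := diag_zero hx 0
  have d1 := diag_zero hx 1
  have d2 := diag_zero hx 2
  have d3 := diag_zero hx 3
  fin_cases i <;> fin_cases j <;> fin_cases k <;> fin_cases l <;>
    simp only [Fin.mk_zero, Fin.mk_one, Fin.reduceFinMk, Fin.zero_eta, h10, h20, h30, h21, h31,
      h32, d0, d1, d2, d3] <;>
    first
    | linear_combination (0 : ℝ) * h
    | linear_combination h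
    | linear_combination (-1 : ℝ) * h

/-- the quadratic form -/
def PP (K : Fin 4 → Fin 4 → Fin 4 → Fin 4 → ℝ) (x : Fin 4 → Fin 4 → ℝ) : ℝ :=
  ∑ i, ∑ j, ∑ k, ∑ l, K i j k l * (x i j * x k l)

theorem PP_comb (K : Fin 4 → Fin 4 → Fin 4 → Fin 4 → ℝ) (x y : Fin 4 → Fin 4 → ℝ) :
    ∃ b, ∀ α β : ℝ, PP K (α • x + β • y) = α ^ 2 * PP K x + α * β * b + β ^ 2 * PP K y := by
  refine ⟨(∑ i, ∑ j, ∑ k, ∑ l, K i j k l * (x i j * y k l)) +
    ∑ i, ∑ j, ∑ k, ∑ l, K i j k l * (y i j * x k l), fun α β => ?_⟩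
  unfold PP
  rw [← sum_add_distrib, mul_sum, mul_sum, mul_sum, ← sum_add_distrib, ← sum_add_distrib]
  refine sum_congr rfl fun i _ => ?_
  rw [← sum_add_distrib, mul_sum, mul_sum, mul_sum, ← sum_add_distrib, ← sum_add_distrib]
  refine sum_congr rfl fun j _ => ?_
  rw [← sum_add_distrib, mul_sum, mul_sum, mul_sum, ← sum_add_distrib, ← sum_add_distrib]
  refine sum_congr rfl fun k _ => ?_
  rw [← sum_add_distrib, mul_sum, mul_sum, mul_sum, ← sum_add_distrib, ← sum_add_distrib]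
  refine sum_congr rfl fun l _ => ?_
  simp only [Pi.add_apply, Pi.smul_apply, smul_eq_mul]
  ring

theorem pf_comb (x y : Fin 4 → Fin 4 → ℝ) :
    ∃ b, ∀ α β : ℝ, 8 * pf (α • x + β • y) =
      α ^ 2 * (8 * pf x) + α * β * b + β ^ 2 * (8 * pf y) := by
  refine ⟨8 * (x 0 1 * y 2 3 + y 0 1 * x 2 3 - x 0 2 * y 1 3 - y 0 2 * x 1 3 + x 0 3 * y 1 2 +
    y 0 3 * x 1 2), fun α β => ?_⟩
  unfold pf
  simp only [Pi.add_apply, Pi.smul_apply, smul_eq_mul]
  ring

/-- **Finsler's lemma** for a set which is closed under linear combinations. -/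
theorem finsler {E : Type*} [AddCommGroup E] [Module ℝ E] (A : E → Prop)
    (hA : ∀ x y, A x → A y → ∀ α β : ℝ, A (α • x + β • y)) (P q : E → ℝ)
    (hP : ∀ x y, ∃ b, ∀ α β : ℝ, P (α • x + β • y) = α ^ 2 * P x + α * β * b + β ^ 2 * P y)
    (hq : ∀ x y, ∃ b, ∀ α β : ℝ, q (α • x + β • y) = α ^ 2 * q x + α * β * b + β ^ 2 * q y)
    (h0 : ∀ x, A x → q x = 0 → 0 ≤ P x) (x0 y0 : E) (hx0 : A x0) (hqx : 0 < q x0) (hy0 : A y0)
    (hqy : q y0 < 0) : ∃ t : ℝ, ∀ x, A x → 0 ≤ P x + t * q x := by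
  have key : ∀ x y, A x → A y → 0 < q x → q y < 0 → 0 ≤ (-q y) * P x + q x * P y := by
    intro x y hx hy h1 h2
    obtain ⟨b, hb⟩ := hP x y
    obtain ⟨c, hc⟩ := hq x y
    obtain ⟨D, hD⟩ : ∃ D, D = -q y := ⟨_, rfl⟩
    obtain ⟨B, hB⟩ : ∃ B, B = q x := ⟨_, rfl⟩
    have hD0 : 0 < D := by rw [hD]; linarith
    have hB0 : 0 < B := by rw [hB]; exact h1
    -- a root of `B r² + c r - D`
    obtain ⟨r, hr⟩ : ∃ r : ℝ, B * r ^ 2 + c * r - D = 0 := by
      have hS : 0 ≤ c ^ 2 + 4 * B * D := by positivity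
      refine ⟨(-c + Real.sqrt (c ^ 2 + 4 * B * D)) / (2 * B), ?_⟩
      have hsq := Real.mul_self_sqrt hS
      generalize Real.sqrt (c ^ 2 + 4 * B * D) = S at hsq
      field_simp
      nlinarith
    have e1 := hb r 1
    have e2 := hc r 1
    have f1 := hb D (-(B * r))
    have f2 := hc D (-(B * r))
    have z1 : q (r • x + (1 : ℝ) • y) = 0 := by
      rw [e2, ← hB]
      have : q y = -D := by rw [hD]; ring
      rw [this]
      linear_combination hr
    have z2 : q (D • x + (-(B * r)) • y) = 0 := by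
      rw [f2, ← hB]
      have : q y = -D := by rw [hD]; ring
      rw [this]
      linear_combination (-(B * D)) * hr
    have p1 := h0 _ (hA x y hx hy _ _) z1
    have p2 := h0 _ (hA x y hx hy _ _) z2
    rw [e1] at p1
    rw [f1] at p2
    rw [← hD, ← hB]
    have h3 : 0 ≤ (B * r ^ 2 + D) * (D * P x + B * P y) := by
      have h4 : (B * r ^ 2 + D) * (D * P x + B * P y) =
          B * D * (r ^ 2 * P x + r * 1 * b + 1 ^ 2 * P y) +
            (D ^ 2 * P x + D * -(B * r) * b + (-(B * r)) ^ 2 * P y) := by ring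
      rw [h4]
      positivity
    exact nonneg_of_mul_nonneg_right h3 (by positivity)
  have hbdd : BddAbove {s : ℝ | ∃ x, A x ∧ 0 < q x ∧ s = -P x / q x} := by
    refine ⟨P y0 / (-q y0), ?_⟩
    rintro s ⟨x, hx, h1, rfl⟩
    rw [div_le_div_iff₀ h1 (by linarith)]
    have := key x y0 hx hy0 h1 hqy
    linarith
  refine ⟨sSup {s : ℝ | ∃ x, A x ∧ 0 < q x ∧ s = -P x / q x}, fun x hx => ?_⟩
  rcases lt_trichotomy (q x) 0 with h | h | h
  · have h1 : sSup {s : ℝ | ∃ x, A x ∧ 0 < q x ∧ s = -P x / q x} ≤ P x / (-q x) := by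
      have hne : {s : ℝ | ∃ x, A x ∧ 0 < q x ∧ s = -P x / q x}.Nonempty :=
        ⟨-P x0 / q x0, x0, hx0, hqx, rfl⟩
      refine csSup_le hne ?_
      rintro s ⟨z, hz, h1, rfl⟩
      rw [div_le_div_iff₀ h1 (by linarith)]
      have := key z x hz hx h1 h
      linarith
    rw [le_div_iff₀ (by linarith)] at h1
    linarith
  · rw [h, mul_zero, add_zero]
    exact h0 x hx h
  · have h1 : -P x / q x ≤ sSup {s : ℝ | ∃ x, A x ∧ 0 < q x ∧ s = -P x / q x} :=
      le_csSup hbdd ⟨x, hx, h, rfl⟩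
    rw [div_le_iff₀ h] at h1
    linarith

/-- a multilinear sum -/
def SM (K : Fin 4 → Fin 4 → Fin 4 → Fin 4 → ℝ) (a b c d : Fin 4 → ℝ) : ℝ :=
  ∑ i, ∑ j, ∑ k, ∑ l, K i j k l * (a i * b j * c k * d l)

theorem SM_swap1 {K : Fin 4 → Fin 4 → Fin 4 → Fin 4 → ℝ}
    (hK : ∀ i j k l, K j i k l = - K i j k l) (a b c d : Fin 4 → ℝ) :
    SM K b a c d = - SM K a b c d := by
  unfold SM
  rw [sum_comm, ← sum_neg_distrib]
  refine sum_congr rfl fun i _ => ?_
  rw [← sum_neg_distrib]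
  refine sum_congr rfl fun j _ => ?_
  rw [← sum_neg_distrib]
  refine sum_congr rfl fun k _ => ?_
  rw [← sum_neg_distrib]
  refine sum_congr rfl fun l _ => ?_
  rw [hK i j]
  ring

theorem SM_swap2 {K : Fin 4 → Fin 4 → Fin 4 → Fin 4 → ℝ}
    (hK : ∀ i j k l, K i j l k = - K i j k l) (a b c d : Fin 4 → ℝ) :
    SM K a b d c = - SM K a b c d := by
  unfold SM
  rw [← sum_neg_distrib]
  refine sum_congr rfl fun i _ => ?_
  rw [← sum_neg_distrib]
  refine sum_congr rfl fun j _ => ?_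
  rw [sum_comm, ← sum_neg_distrib]
  refine sum_congr rfl fun k _ => ?_
  rw [← sum_neg_distrib]
  refine sum_congr rfl fun l _ => ?_
  rw [hK i j k l]
  ring

theorem PP_wedge {K : Fin 4 → Fin 4 → Fin 4 → Fin 4 → ℝ}
    (h1 : ∀ i j k l, K j i k l = - K i j k l) (h2 : ∀ i j k l, K i j l k = - K i j k l)
    (a b : Fin 4 → ℝ) {x : Fin 4 → Fin 4 → ℝ} (hx : ∀ k l, x k l = a k * b l - a l * b k) :
    PP K x = 4 * SM K a b a b := by
  have e : PP K x = SM K a b a b - SM K a b b a - SM K b a a b + SM K b a b a := by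
    unfold PP SM
    rw [← sum_sub_distrib, ← sum_sub_distrib, ← sum_add_distrib]
    refine sum_congr rfl fun i _ => ?_
    rw [← sum_sub_distrib, ← sum_sub_distrib, ← sum_add_distrib]
    refine sum_congr rfl fun j _ => ?_
    rw [← sum_sub_distrib, ← sum_sub_distrib, ← sum_add_distrib]
    refine sum_congr rfl fun k _ => ?_
    rw [← sum_sub_distrib, ← sum_sub_distrib, ← sum_add_distrib]
    refine sum_congr rfl fun l _ => ?_
    rw [hx i j, hx k l]
    ring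
  rw [e, SM_swap2 h2 b a a b, SM_swap2 h2 a b a b, SM_swap1 h1 a b a b]
  ring

/-- **Thorpe's lemma in dimension four.** -/
theorem tho : Pool.Agent.W669.HD.S_THO := by
  intro K h1 hp hn
  have h2 : ∀ i j k l, K i j l k = - K i j k l := by
    intro i j k l
    rw [← hp i j l k, ← hp i j k l]
    exact h1 k l i j
  have h0 : ∀ x : Fin 4 → Fin 4 → ℝ, (∀ i j, x j i = - x i j) → 8 * pf x = 0 → 0 ≤ PP K x := by
    intro x hx hpf
    have hpf' : pf x = 0 := by linarith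
    by_cases hz : ∃ p r, x p r ≠ 0
    · obtain ⟨p, r, hpr⟩ := hz
      have hw : ∀ k l, x k l = x p k * (x r l / x p r) - x p l * (x r k / x p r) := by
        intro k l
        have h := pluck hx hpf' p r k l
        field_simp
        linarith
      rw [PP_wedge h1 h2 (fun k => x p k) (fun l => x r l / x p r) hw]
      have h3 := hn (fun k => x p k) (fun l => x r l / x p r)
      exact mul_nonneg (by norm_num) h3
    · push Not at hz
      have : PP K x = 0 := by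
        unfold PP
        simp [hz]
      rw [this]
  obtain ⟨t, ht⟩ := finsler (fun x : Fin 4 → Fin 4 → ℝ => ∀ i j, x j i = - x i j)
    (fun x y hx hy α β i j => by
      simp only [Pi.add_apply, Pi.smul_apply, smul_eq_mul]
      rw [hx i j, hy i j]
      ring) (PP K) (fun x => 8 * pf x) (PP_comb K) pf_comb h0
    (fun i j => (![![0, 1, 0, 0], ![-1, 0, 0, 0], ![0, 0, 0, 1], ![0, 0, -1, 0]] :
      Fin 4 → Fin 4 → ℝ) i j)
    (fun i j => (![![0, 1, 0, 0], ![-1, 0, 0, 0], ![0, 0, 0, -1], ![0, 0, 1, 0]] :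
      Fin 4 → Fin 4 → ℝ) i j)
    (by
      intro i j
      fin_cases i <;> fin_cases j <;> simp)
    (by simp [pf])
    (by
      intro i j
      fin_cases i <;> fin_cases j <;> simp)
    (by simp [pf])
  refine ⟨t, fun x hx => ?_⟩
  have h3 := ht x hx
  rw [← q_eq x hx] at h3
  have h4 : ∑ i, ∑ j, ∑ k, ∑ l, (K i j k l + t * eps i j k l) * (x i j * x k l) =
      PP K x + t * ∑ i, ∑ j, ∑ k, ∑ l, eps i j k l * (x i j * x k l) := by
    unfold PP
    rw [mul_sum, ← sum_add_distrib]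
    refine sum_congr rfl fun i _ => ?_
    rw [mul_sum, ← sum_add_distrib]
    refine sum_congr rfl fun j _ => ?_
    rw [mul_sum, ← sum_add_distrib]
    refine sum_congr rfl fun k _ => ?_
    rw [mul_sum, ← sum_add_distrib]
    refine sum_congr rfl fun l _ => ?_
    ring
  rw [h4]
  exact h3

end Pool.Agent.W975.HD
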