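import Pool.Agent.W975.HD.Rand2

/-!
# HD-RAND: random sets of modes
-/

set_option autoImplicit false
set_option maxHeartbeats 400000

open MeasureTheory Set Filter Topology

namespace Pool.Agent.W975.HD

open Pool.Agent.W229.HD

lemma nm_zero : nm 0 = 0 := by
  have h : nm (0 : K3) ^ 2 = 0 := by
    rw [nm_sq]
    simp
  exact pow_eq_zero_iff (two_ne_zero) |>.1 h

/-- **HD-RAND** -/
theorem rand (hL : S_LAT) : S_RAND := by
  classical
  obtain ⟨C, hC0, hC, -, hsum⟩ := hL
  intro α h1 h2 D hD hDD Ω _ P _ X hXm hXn hX0 hI hXP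
  -- exponents
  obtain ⟨g, hg0, hgs, hgD⟩ : ∃ g : Bool → ℝ, (∀ s, 0 ≤ g s) ∧ g true + g false = 5 - 4 * α ∧
      ∀ s, D s - 3 ≤ -g s := by
    have hf := hD false
    have ht := hD true
    have m1 := le_max_left 0 (2 - 4 * α + D false)
    have m2 := le_max_right 0 (2 - 4 * α + D false)
    have m3 : max 0 (2 - 4 * α + D false) ≤ 5 - 4 * α := max_le (by linarith) (by linarith)
    have m4 : max 0 (2 - 4 * α + D false) ≤ 3 - D true := max_le (by linarith) (by linarith)
    refine ⟨fun s => if s then max 0 (2 - 4 * α + D false) else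
      5 - 4 * α - max 0 (2 - 4 * α + D false), ?_, ?_, ?_⟩
    · intro s
      cases s
      · simp only [Bool.false_eq_true, if_false]
        linarith
      · simp only [if_true]
        exact m1
    · simp only [if_true, Bool.false_eq_true, if_false]
      ring
    · intro s
      cases s
      · simp only [Bool.false_eq_true, if_false]
        linarith
      · simp only [if_true]
        linarith
  have hb : ∀ s k, k ≠ 0 → P (X s k) ≤ ENNReal.ofReal (nm k ^ (-g s)) := fun s k hk =>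
    (hXP s k hk).trans (ENNReal.ofReal_le_ofReal
      (Real.rpow_le_rpow_of_exponent_le (one_le_nm hk) (hgD s)))
  have hgr : ∀ r : Bool, g (!r) + g r = 5 - 4 * α := by
    intro r
    cases r
    · simp only [Bool.not_false]
      linarith
    · simp only [Bool.not_true]
      linarith
  -- the sets
  obtain ⟨Bl, hBl⟩ : ∃ Bl : K3 → Finset K3, ∀ p l, l ∈ Bl p ↔ nm l ≤ nm p :=
    ⟨fun p => (ball_finite (nm p)).toFinset, fun p l => by simp⟩
  set Bs : K3 → Bool → Finset K3 := fun p h =>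
    (Bl p).filter (fun l => l ≠ 0 ∧ p + l ≠ 0 ∧ Hh h l) with hBs
  have hBs' : ∀ p h l, l ∈ Bs p h ↔ nm l ≤ nm p ∧ l ≠ 0 ∧ p + l ≠ 0 ∧ Hh h l := by
    intro p h l
    simp only [hBs, Finset.mem_filter, hBl]
  set E : Bool → K3 → K3 → Set Ω := fun r p l => X (!r) l ∩ X r (p + l) with hE
  set Z : K3 → Bool × Bool → Ω → ℝ := fun p rh ω =>
    ∑ l ∈ Bs p rh.2, (E rh.1 p l).indicator (fun _ => nm l ^ (2 - 2 * α)) ω with hZ
  obtain ⟨C1, hC1⟩ : ∃ C1 : ℝ, C1 = 2 * C * 2 ^ (2 * α) := ⟨_, rfl⟩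
  have hC10 : 0 ≤ C1 := by
    rw [hC1]
    positivity
  have hw0 : ∀ l : K3, 0 ≤ nm l ^ (2 - 2 * α) := fun l => Real.rpow_nonneg (nm_nonneg l) _
  have hprob : ∀ (rh : Bool × Bool) (p : K3),
      P {ω | (2 * C1 + 4) * nm p ^ (2 * α) ≤ Z p rh ω} ≤
        ENNReal.ofReal (((1 + nm p) ^ 4)⁻¹) := by
    intro rh p
    by_cases hp : p = 0
    · subst hp
      rw [nm_zero]
      norm_num
      exact prob_le_one
    · have hp1 := one_le_nm hp
      have hm := moment P (Bs p rh.2) (E rh.1 p) (fun l => (hXm _ _).inter (hXm _ _))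
        (fun l => nm l ^ (2 - 2 * α)) (fun l => nm l ^ (-g (!rh.1)) * nm (p + l) ^ (-g rh.1))
        (fun l _ => hw0 l)
        (fun l hl => Real.rpow_le_one_of_one_le_of_nonpos
          (one_le_nm ((hBs' p rh.2 l).1 hl).2.1) (by linarith))
        (fun l _ => mul_nonneg (Real.rpow_nonneg (nm_nonneg _) _)
          (Real.rpow_nonneg (nm_nonneg _) _))
        (indep_bound P X hI g hb rh.1 rh.2 p (Bs p rh.2)
          (fun l hl => by
            obtain ⟨a1, a2, a3, a4⟩ := (hBs' p rh.2 l).1 hl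
            exact ⟨a2, a3, a1⟩)
          (fun l hl => ((hBs' p rh.2 l).1 hl).2.2.2))
        ((2 * C1 + 4) * nm p ^ (2 * α))
      refine hm.trans (ENNReal.ofReal_le_ofReal ?_)
      have hs := sum_bound hC h1 (a := 2 * α - 2 + g (!rh.1)) (b := g rh.1)
        (by have := hg0 (!rh.1); linarith) (hg0 _) (by have := hgr rh.1; linarith) p hp
        (Bs p rh.2) (fun l hl => by
          obtain ⟨a1, a2, a3, a4⟩ := (hBs' p rh.2 l).1 hl
          exact ⟨a2, a3, a1⟩)
      have e : ∑ l ∈ Bs p rh.2, nm l ^ (2 - 2 * α) *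
          (nm l ^ (-g (!rh.1)) * nm (p + l) ^ (-g rh.1)) =
          ∑ l ∈ Bs p rh.2, nm l ^ (-(2 * α - 2 + g (!rh.1))) * nm (p + l) ^ (-g rh.1) := by
        refine Finset.sum_congr rfl fun l hl => ?_
        have hl1 := one_le_nm ((hBs' p rh.2 l).1 hl).2.1
        rw [← mul_assoc, ← Real.rpow_add (by linarith)]
        congr 2
        ring
      rw [e]
      rw [← hC1] at hs
      have h3 : nm p ≤ nm p ^ (2 * α) := by
        have := Real.rpow_le_rpow_of_exponent_le hp1 (show (1 : ℝ) ≤ 2 * α by linarith)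
        rwa [Real.rpow_one] at this
      have h4 : 2 * ∑ l ∈ Bs p rh.2, nm l ^ (-(2 * α - 2 + g (!rh.1))) *
          nm (p + l) ^ (-g rh.1) - (2 * C1 + 4) * nm p ^ (2 * α) ≤ -(4 * nm p) := by
        nlinarith
      refine (Real.exp_le_exp.2 h4).trans ?_
      rw [Real.exp_neg]
      refine inv_anti₀ (by positivity) ?_
      have h5 : 1 + nm p ≤ Real.exp (nm p) := by
        have := Real.add_one_le_exp (nm p)
        linarith
      have h6 : Real.exp (4 * nm p) = Real.exp (nm p) ^ 4 := by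
        rw [← Real.exp_nat_mul]
        norm_num
      rw [h6]
      exact pow_le_pow_left₀ (by positivity) h5 4
  have hae : ∀ᵐ ω ∂P, ∀ rh : Bool × Bool,
      {p : K3 | ω ∈ {ω | (2 * C1 + 4) * nm p ^ (2 * α) ≤ Z p rh ω}}.Finite := by
    rw [ae_all_iff]
    intro rh
    apply ae_finite_setOfPred_mem
    refine ne_top_of_le_ne_top ?_ (ENNReal.tsum_le_tsum (hprob rh))
    rw [← ENNReal.ofReal_tsum_of_nonneg
      (fun p => by have := nm_nonneg p; positivity) hsum]
    exact ENNReal.ofReal_ne_top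
  filter_upwards [hae] with ω hω
  -- the constant
  set Bad : Bool × Bool → Finset K3 := fun rh => (hω rh).toFinset with hBad
  have hBad' : ∀ rh p, p ∈ Bad rh ↔ (2 * C1 + 4) * nm p ^ (2 * α) ≤ Z p rh ω := by
    intro rh p
    simp only [hBad, Set.Finite.mem_toFinset, Set.mem_ofPred_eq]
  set W : K3 → ℝ := fun p => ∑ l ∈ Bl p, nm l ^ (2 - 2 * α) with hW
  have hW0 : ∀ p, 0 ≤ W p := fun p => Finset.sum_nonneg fun l _ => hw0 l
  set M : Bool × Bool → ℝ := fun rh => 2 * C1 + 4 + ∑ p ∈ Bad rh, W p with hM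
  have hM0 : ∀ rh, 0 ≤ M rh := fun rh => by
    have := Finset.sum_nonneg (s := Bad rh) (fun p _ => hW0 p)
    simp only [hM]
    positivity
  have hZM : ∀ rh p, p ≠ 0 → Z p rh ω ≤ M rh * nm p ^ (2 * α) := by
    intro rh p hp
    have hp1 : 1 ≤ nm p ^ (2 * α) := Real.one_le_rpow (one_le_nm hp) (by linarith)
    by_cases hpB : p ∈ Bad rh
    · have g1 : Z p rh ω ≤ W p := by
        simp only [hZ, hW]
        have g2 : ∑ l ∈ Bs p rh.2, (E rh.1 p l).indicator (fun _ => nm l ^ (2 - 2 * α)) ω ≤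
            ∑ l ∈ Bs p rh.2, nm l ^ (2 - 2 * α) :=
          Finset.sum_le_sum fun l _ => Set.indicator_le_self' (fun _ _ => hw0 l) ω
        refine g2.trans (Finset.sum_le_sum_of_subset_of_nonneg (Finset.filter_subset _ _)
          (fun l _ _ => hw0 l))
      have g3 : W p ≤ ∑ p ∈ Bad rh, W p :=
        Finset.single_le_sum (fun p _ => hW0 p) hpB
      have g4 : ∑ p ∈ Bad rh, W p ≤ M rh := by
        simp only [hM]
        linarith
      have g5 := hM0 rh
      nlinarith
    · rw [hBad', not_le] at hpB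
      have g6 : 2 * C1 + 4 ≤ M rh := by
        have := Finset.sum_nonneg (s := Bad rh) (fun p _ => hW0 p)
        simp only [hM]
        linarith
      nlinarith
  refine ⟨∑ rh : Bool × Bool, M rh, Finset.sum_nonneg fun rh _ => hM0 rh, ?_⟩
  intro s p hp F hF
  have hp' : ω ∈ X s p := hp
  have hX0' : ∀ (s' : Bool) (k : K3), ω ∈ X s' k → k ≠ 0 := by
    intro s' k hk h0
    rw [h0, hX0] at hk
    exact hk
  have hp0 : p ≠ 0 := hX0' s p hp'
  have key : ∀ l ∈ F, nm l ^ (2 - 2 * α) ≤ ∑ rh : Bool × Bool,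
      (if l ∈ Bs p rh.2 ∧ ω ∈ E rh.1 p l then nm l ^ (2 - 2 * α) else 0) := by
    intro l hl
    obtain ⟨hle, hor⟩ := hF l hl
    obtain ⟨r, hr⟩ : ∃ r : Bool, ω ∈ E r p l := by
      rcases hor with ⟨a1, a2⟩ | ⟨a1, a2⟩
      · exact ⟨s, a1, a2⟩
      · refine ⟨!s, ?_, a2⟩
        rw [Bool.not_not]
        exact a1
    have hl0 : l ≠ 0 := hX0' _ _ hr.1
    have hpl : p + l ≠ 0 := hX0' _ _ hr.2
    obtain ⟨h, hh⟩ := Hh_or hl0
    have hmem : l ∈ Bs p h := (hBs' p h l).2 ⟨hle, hl0, hpl, hh⟩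
    have := Finset.single_le_sum (f := fun rh : Bool × Bool =>
      (if l ∈ Bs p rh.2 ∧ ω ∈ E rh.1 p l then nm l ^ (2 - 2 * α) else 0))
      (fun rh _ => by split_ifs <;> [exact hw0 l; exact le_rfl]) (Finset.mem_univ (r, h))
    simp only [hmem, hr, and_self, if_true] at this
    exact this
  refine (Finset.sum_le_sum key).trans ?_
  rw [Finset.sum_comm, Finset.sum_mul]
  refine Finset.sum_le_sum fun rh _ => ?_
  refine le_trans ?_ (hZM rh p hp0)
  have e1 : ∑ l ∈ F, (if l ∈ Bs p rh.2 ∧ ω ∈ E rh.1 p l then nm l ^ (2 - 2 * α) else 0) =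
      ∑ l ∈ F.filter (fun l => l ∈ Bs p rh.2),
        (E rh.1 p l).indicator (fun _ => nm l ^ (2 - 2 * α)) ω := by
    rw [Finset.sum_filter]
    refine Finset.sum_congr rfl fun l _ => ?_
    by_cases a1 : l ∈ Bs p rh.2
    · by_cases a2 : ω ∈ E rh.1 p l
      · rw [if_pos ⟨a1, a2⟩, if_pos a1, Set.indicator_of_mem a2]
      · rw [if_neg (fun h => a2 h.2), if_pos a1, Set.indicator_of_notMem a2]
    · rw [if_neg (fun h => a1 h.1), if_neg a1]
  rw [e1]
  simp only [hZ]
  refine Finset.sum_le_sum_of_subset_of_nonneg (fun l hl => (Finset.mem_filter.1 hl).2)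
    (fun l _ _ => Set.indicator_nonneg (fun _ _ => hw0 l) ω)

end Pool.Agent.W975.HD
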