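import Pool.Agent.W229.HD.Stm

/-!
# HD-RAND: random sets of modes, part 1
-/

set_option autoImplicit false
set_option maxHeartbeats 400000

open MeasureTheory Set Filter Topology

namespace Pool.Agent.W975.HD

open Pool.Agent.W229.HD

lemma nm_sq (k : K3) : nm k ^ 2 = (k 0 : ℝ) ^ 2 + (k 1 : ℝ) ^ 2 + (k 2 : ℝ) ^ 2 := by
  unfold nm
  rw [Real.sq_sqrt (Finset.sum_nonneg fun j _ => sq_nonneg _), Fin.sum_univ_three]

lemma nm_nonneg (k : K3) : 0 ≤ nm k := Real.sqrt_nonneg _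

lemma one_le_nm {k : K3} (hk : k ≠ 0) : 1 ≤ nm k := by
  by_contra h
  push Not at h
  have h0 := nm_nonneg k
  have h1 : nm k ^ 2 < 1 := by nlinarith
  rw [nm_sq] at h1
  have h2 : (k 0) ^ 2 + (k 1) ^ 2 + (k 2) ^ 2 < 1 := by exact_mod_cast h1
  have e0 : k 0 = 0 := by nlinarith [sq_nonneg (k 0), sq_nonneg (k 1), sq_nonneg (k 2)]
  have e1 : k 1 = 0 := by nlinarith [sq_nonneg (k 0), sq_nonneg (k 1), sq_nonneg (k 2)]
  have e2 : k 2 = 0 := by nlinarith [sq_nonneg (k 0), sq_nonneg (k 1), sq_nonneg (k 2)]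
  apply hk
  funext j
  fin_cases j
  · exact e0
  · exact e1
  · exact e2

lemma nm_add_le {p l : K3} (h : nm l ≤ nm p) : nm (p + l) ≤ 2 * nm p := by
  have h0 := nm_nonneg p
  have h1 := nm_nonneg l
  apply le_of_sq_le_sq _ (by positivity)
  have h2 : nm l ^ 2 ≤ nm p ^ 2 := by gcongr
  have e : nm (p + l) ^ 2 = ((p 0 : ℝ) + l 0) ^ 2 + ((p 1 : ℝ) + l 1) ^ 2 +
      ((p 2 : ℝ) + l 2) ^ 2 := by
    rw [nm_sq]
    simp only [Pi.add_apply, Int.cast_add]
  rw [mul_pow, e]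
  rw [nm_sq, nm_sq] at h2
  rw [nm_sq]
  nlinarith [sq_nonneg ((p 0 : ℝ) - l 0), sq_nonneg ((p 1 : ℝ) - l 1),
    sq_nonneg ((p 2 : ℝ) - l 2)]

/-- two opposite indices -/
lemma opp {p l l' : K3} (h1 : nm l ≤ nm p) (h2 : nm l' ≤ nm p) (h : -(p + l) = p + l') :
    p + l = 0 := by
  have g1 : nm l ^ 2 ≤ nm p ^ 2 := pow_le_pow_left₀ (nm_nonneg l) h1 2
  have g2 : nm l' ^ 2 ≤ nm p ^ 2 := pow_le_pow_left₀ (nm_nonneg l') h2 2
  rw [nm_sq, nm_sq] at g1 g2
  have g1' : (l 0) ^ 2 + (l 1) ^ 2 + (l 2) ^ 2 ≤ (p 0) ^ 2 + (p 1) ^ 2 + (p 2) ^ 2 := by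
    exact_mod_cast g1
  have g2' : (l' 0) ^ 2 + (l' 1) ^ 2 + (l' 2) ^ 2 ≤ (p 0) ^ 2 + (p 1) ^ 2 + (p 2) ^ 2 := by
    exact_mod_cast g2
  have e : ∀ j, l' j = -2 * p j - l j := by
    intro j
    have := congrFun h j
    simp only [Pi.neg_apply, Pi.add_apply] at this
    omega
  rw [e 0, e 1, e 2] at g2'
  have key : (p 0 + l 0) ^ 2 + (p 1 + l 1) ^ 2 + (p 2 + l 2) ^ 2 ≤ 0 := by nlinarith
  have e0 : p 0 + l 0 = 0 := by
    nlinarith [sq_nonneg (p 0 + l 0), sq_nonneg (p 1 + l 1), sq_nonneg (p 2 + l 2)]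
  have e1 : p 1 + l 1 = 0 := by
    nlinarith [sq_nonneg (p 0 + l 0), sq_nonneg (p 1 + l 1), sq_nonneg (p 2 + l 2)]
  have e2 : p 2 + l 2 = 0 := by
    nlinarith [sq_nonneg (p 0 + l 0), sq_nonneg (p 1 + l 1), sq_nonneg (p 2 + l 2)]
  funext j
  fin_cases j
  · exact e0
  · exact e1
  · exact e2

/-- the exponential moment -/
lemma moment {Ω : Type} [MeasurableSpace Ω] (P : Measure Ω) {ι : Type} [DecidableEq ι]
    (B : Finset ι) (E : ι → Set Ω) (hE : ∀ l, MeasurableSet (E l)) (w q : ι → ℝ)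
    (hw0 : ∀ l ∈ B, 0 ≤ w l) (hw1 : ∀ l ∈ B, w l ≤ 1) (hq : ∀ l ∈ B, 0 ≤ q l)
    (hP : ∀ J ⊆ B, P (⋂ l ∈ J, E l) ≤ ∏ l ∈ J, ENNReal.ofReal (q l)) (T : ℝ) :
    P {ω | T ≤ ∑ l ∈ B, (E l).indicator (fun _ => w l) ω} ≤
      ENNReal.ofReal (Real.exp (2 * ∑ l ∈ B, w l * q l - T)) := by
  classical
  set Y : Ω → ENNReal := fun ω =>
    ∏ l ∈ B, (1 + (E l).indicator (fun _ => ENNReal.ofReal (2 * w l)) ω) with hY
  have hprod : ∀ (J : Finset ι) (c : ι → ENNReal) (ω : Ω),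
      ∏ l ∈ J, (E l).indicator (fun _ => c l) ω =
        (⋂ l ∈ J, E l).indicator (fun _ => ∏ l ∈ J, c l) ω := by
    intro J c ω
    by_cases h : ω ∈ ⋂ l ∈ J, E l
    · rw [Set.indicator_of_mem h]
      refine Finset.prod_congr rfl fun l hl => ?_
      rw [Set.indicator_of_mem]
      simp only [Set.mem_iInter] at h
      exact h l hl
    · rw [Set.indicator_of_notMem h]
      simp only [Set.mem_iInter, not_forall] at h
      obtain ⟨l, hl, h'⟩ := h
      exact Finset.prod_eq_zero hl (Set.indicator_of_notMem h' _)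
  have hYint : ∫⁻ ω, Y ω ∂P ≤ ENNReal.ofReal (Real.exp (2 * ∑ l ∈ B, w l * q l)) := by
    have h1 : ∀ ω, Y ω = ∑ J ∈ B.powerset,
        (⋂ l ∈ J, E l).indicator (fun _ => ∏ l ∈ J, ENNReal.ofReal (2 * w l)) ω := by
      intro ω
      simp only [hY]
      rw [Finset.prod_one_add]
      exact Finset.sum_congr rfl fun J _ => hprod J _ ω
    simp only [h1]
    rw [lintegral_finsetSum' _ (fun J _ => by
      refine (measurable_const.indicator ?_).aemeasurable
      exact MeasurableSet.biInter J.countable_toSet fun l _ => hE l)]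
    have h2 : ∀ J ∈ B.powerset, ∫⁻ ω, (⋂ l ∈ J, E l).indicator
        (fun _ => ∏ l ∈ J, ENNReal.ofReal (2 * w l)) ω ∂P ≤
        ∏ l ∈ J, ENNReal.ofReal (2 * (w l * q l)) := by
      intro J hJ
      rw [Finset.mem_powerset] at hJ
      have hm : MeasurableSet (⋂ l ∈ J, E l) := Finset.measurableSet_biInter J fun l _ => hE l
      rw [lintegral_indicator_const hm]
      refine (mul_le_mul_right (hP J hJ) _).trans (le_of_eq ?_)
      rw [← Finset.prod_mul_distrib]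
      refine Finset.prod_congr rfl fun l hl => ?_
      rw [← ENNReal.ofReal_mul (by have := hw0 l (hJ hl); positivity), mul_assoc]
    refine (Finset.sum_le_sum h2).trans ?_
    rw [← Finset.prod_one_add]
    have h3 : ∏ l ∈ B, (1 + ENNReal.ofReal (2 * (w l * q l))) ≤
        ∏ l ∈ B, ENNReal.ofReal (Real.exp (2 * (w l * q l))) := by
      refine Finset.prod_le_prod' fun l hl => ?_
      have h4 : 0 ≤ 2 * (w l * q l) := by
        have := mul_nonneg (hw0 l hl) (hq l hl)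
        positivity
      rw [← ENNReal.ofReal_one, ← ENNReal.ofReal_add zero_le_one h4]
      apply ENNReal.ofReal_le_ofReal
      have := Real.add_one_le_exp (2 * (w l * q l))
      linarith
    refine h3.trans (le_of_eq ?_)
    rw [← ENNReal.ofReal_prod_of_nonneg (fun l _ => (Real.exp_pos _).le), ← Real.exp_sum,
      Finset.mul_sum]
  have hYm : Measurable Y := by
    refine Finset.measurable_prod _ fun l _ => ?_
    exact (measurable_const.indicator (hE l)).const_add 1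
  have hsub : {ω | T ≤ ∑ l ∈ B, (E l).indicator (fun _ => w l) ω} ⊆
      {ω | ENNReal.ofReal (Real.exp T) ≤ Y ω} := by
    intro ω hω
    simp only [Set.mem_ofPred_eq] at hω ⊢
    have h1 : ENNReal.ofReal (Real.exp T) ≤
        ENNReal.ofReal (Real.exp (∑ l ∈ B, (E l).indicator (fun _ => w l) ω)) :=
      ENNReal.ofReal_le_ofReal (Real.exp_le_exp.2 hω)
    refine h1.trans ?_
    rw [Real.exp_sum, ENNReal.ofReal_prod_of_nonneg (fun l _ => (Real.exp_pos _).le)]
    refine Finset.prod_le_prod' fun l hl => ?_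
    by_cases h : ω ∈ E l
    · rw [Set.indicator_of_mem h, Set.indicator_of_mem h, ← ENNReal.ofReal_one,
        ← ENNReal.ofReal_add zero_le_one (by have := hw0 l hl; positivity)]
      apply ENNReal.ofReal_le_ofReal
      have g0 := hw0 l hl
      have g1 := hw1 l hl
      have h2 := Real.abs_exp_sub_one_sub_id_le (x := w l) (by rw [abs_of_nonneg g0]; exact g1)
      have h3 := (abs_le.1 h2).2
      nlinarith
    · rw [Set.indicator_of_notMem h, Set.indicator_of_notMem h, Real.exp_zero, add_zero,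
        ENNReal.ofReal_one]
  refine (measure_mono hsub).trans ?_
  have hmk := mul_meas_ge_le_lintegral (μ := P) hYm (ENNReal.ofReal (Real.exp T))
  have hpos : ENNReal.ofReal (Real.exp T) ≠ 0 := by
    rw [Ne, ENNReal.ofReal_eq_zero, not_le]
    exact Real.exp_pos T
  rw [Real.exp_sub, ENNReal.ofReal_div_of_pos (Real.exp_pos T)]
  rw [ENNReal.le_div_iff_mul_le (Or.inl hpos) (Or.inl ENNReal.ofReal_ne_top), mul_comm]
  exact hmk.trans hYint

end Pool.Agent.W975.HD
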