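import Pool.Agent.W975.HD.Rand1

/-!
# HD-RAND: random sets of modes, part 2
-/

set_option autoImplicit false
set_option maxHeartbeats 400000

open MeasureTheory Set Filter Topology

namespace Pool.Agent.W975.HD

open Pool.Agent.W229.HD

/-- half of the frequencies -/
def Hf (l : K3) : Prop := 0 < l 0 ∨ (l 0 = 0 ∧ 0 < l 1) ∨ (l 0 = 0 ∧ l 1 = 0 ∧ 0 < l 2)

/-- one of the two halves -/
def Hh (h : Bool) (l : K3) : Prop := if h then Hf l else Hf (-l)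

lemma Hf_or {l : K3} (hl : l ≠ 0) : Hf l ∨ Hf (-l) := by
  unfold Hf
  simp only [Pi.neg_apply]
  have : ¬ (l 0 = 0 ∧ l 1 = 0 ∧ l 2 = 0) := by
    rintro ⟨e0, e1, e2⟩
    apply hl
    funext j
    fin_cases j
    · exact e0
    · exact e1
    · exact e2
  omega

lemma Hf_not (l : K3) (h : Hf l) : ¬ Hf (-l) := by
  unfold Hf at *
  simp only [Pi.neg_apply]
  omega

lemma Hh_or {l : K3} (hl : l ≠ 0) : ∃ h, Hh h l := by
  rcases Hf_or hl with h | h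
  · exact ⟨true, by simpa [Hh] using h⟩
  · exact ⟨false, by simpa [Hh] using h⟩

lemma Hh_not (h : Bool) (l : K3) (h' : Hh h l) : ¬ Hh h (-l) := by
  unfold Hh at *
  cases h
  · simp only [Bool.false_eq_true, if_false, neg_neg] at *
    intro h2
    exact Hf_not l h2 h'
  · simp only [if_true] at *
    exact Hf_not l h'

lemma indep_bound {Ω : Type} [MeasurableSpace Ω] (P : Measure Ω) (X : Bool → K3 → Set Ω)
    (hI : SymIndep P X) (g : Bool → ℝ)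
    (hb : ∀ s k, k ≠ 0 → P (X s k) ≤ ENNReal.ofReal (nm k ^ (-g s))) (r h : Bool) (p : K3)
    (B : Finset K3) (hB : ∀ l ∈ B, l ≠ 0 ∧ p + l ≠ 0 ∧ nm l ≤ nm p) (hH : ∀ l ∈ B, Hh h l) :
    ∀ J ⊆ B, P (⋂ l ∈ J, (X (!r) l ∩ X r (p + l))) ≤
      ∏ l ∈ J, ENNReal.ofReal (nm l ^ (-g (!r)) * nm (p + l) ^ (-g r)) := by
  classical
  intro J hJ
  have hr : (!r) ≠ r := by cases r <;> simp
  have hinj1 : Set.InjOn (fun l : K3 => ((!r), l)) J := fun x _ y _ hxy => (Prod.mk.inj hxy).2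
  have hinj2 : Set.InjOn (fun l : K3 => (r, p + l)) J := fun x _ y _ hxy =>
    add_left_cancel (Prod.mk.inj hxy).2
  have hdis : Disjoint (J.image (fun l => ((!r), l))) (J.image (fun l => (r, p + l))) := by
    rw [Finset.disjoint_left]
    intro j h1 h2
    obtain ⟨x, -, rfl⟩ := Finset.mem_image.1 h1
    obtain ⟨y, -, hy⟩ := Finset.mem_image.1 h2
    exact hr (Prod.mk.inj hy).1.symm
  have hJ' := hI (J.image (fun l => ((!r), l)) ∪ J.image (fun l => (r, p + l))) (by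
    intro j hj hj'
    rw [Finset.mem_union, Finset.mem_image, Finset.mem_image] at hj hj'
    rcases hj with ⟨x, hx, rfl⟩ | ⟨x, hx, rfl⟩ <;> rcases hj' with ⟨y, hy, hxy⟩ | ⟨y, hy, hxy⟩
    · have h2 := (Prod.mk.inj hxy).2
      simp only [] at h2
      have h3 := hH y (hJ hy)
      rw [h2] at h3
      exact Hh_not h x (hH x (hJ hx)) h3
    · exact hr (Prod.mk.inj hxy).1.symm
    · exact hr (Prod.mk.inj hxy).1
    · have h2 := (Prod.mk.inj hxy).2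
      simp only [] at h2
      exact (hB x (hJ hx)).2.1 (opp (hB x (hJ hx)).2.2 (hB y (hJ hy)).2.2 h2.symm))
  have e1 : (⋂ j ∈ J.image (fun l => ((!r), l)) ∪ J.image (fun l => (r, p + l)), X j.1 j.2) =
      ⋂ l ∈ J, (X (!r) l ∩ X r (p + l)) := by
    ext ω
    simp only [Set.mem_iInter, Finset.mem_union, Finset.mem_image, Set.mem_inter_iff]
    constructor
    · intro h1 l hl
      exact ⟨h1 (!r, l) (Or.inl ⟨l, hl, rfl⟩), h1 (r, p + l) (Or.inr ⟨l, hl, rfl⟩)⟩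
    · rintro h1 j (⟨l, hl, rfl⟩ | ⟨l, hl, rfl⟩)
      · exact (h1 l hl).1
      · exact (h1 l hl).2
  rw [e1, Finset.prod_union hdis, Finset.prod_image hinj1, Finset.prod_image hinj2,
    ← Finset.prod_mul_distrib] at hJ'
  rw [hJ']
  refine Finset.prod_le_prod' fun l hl => ?_
  obtain ⟨h1, h2, -⟩ := hB l (hJ hl)
  rw [ENNReal.ofReal_mul (Real.rpow_nonneg (nm_nonneg l) _)]
  exact mul_le_mul' (hb _ _ h1) (hb _ _ h2)

lemma term {x y R a b : ℝ} (hx : 1 ≤ x) (hy : 1 ≤ y) (hxR : x ≤ R) (hyR : y ≤ R) (ha : 0 ≤ a)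
    (hb : 0 ≤ b) (hab : a + b ≤ 1) :
    x ^ (-a) * y ^ (-b) ≤ R ^ (1 - (a + b)) * (x⁻¹ + y⁻¹) := by
  have hx0 : 0 < x := by linarith
  have hy0 : 0 < y := by linarith
  have hR0 : 0 < R := by linarith
  have key : ∀ z : ℝ, 0 < z → z ≤ R → z ^ (-(a + b)) ≤ R ^ (1 - (a + b)) * z⁻¹ := by
    intro z hz hzR
    have e : z ^ (-(a + b)) = z ^ (1 - (a + b)) * z⁻¹ := by
      rw [← Real.rpow_neg_one z, ← Real.rpow_add hz]
      congr 1
      ring
    rw [e]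
    refine mul_le_mul_of_nonneg_right ?_ (by positivity)
    exact Real.rpow_le_rpow hz.le hzR (by linarith)
  have hRp : 0 ≤ R ^ (1 - (a + b)) := Real.rpow_nonneg hR0.le _
  rcases le_total x y with h | h
  · have h1 : y ^ (-b) ≤ x ^ (-b) := Real.rpow_le_rpow_of_nonpos hx0 h (by linarith)
    have h2 : x ^ (-a) * y ^ (-b) ≤ x ^ (-a) * x ^ (-b) :=
      mul_le_mul_of_nonneg_left h1 (Real.rpow_nonneg hx0.le _)
    have h3 : x ^ (-a) * x ^ (-b) = x ^ (-(a + b)) := by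
      rw [← Real.rpow_add hx0]
      congr 1
      ring
    have h4 := key x hx0 hxR
    have h5 : 0 ≤ R ^ (1 - (a + b)) * y⁻¹ := by positivity
    rw [mul_add]
    linarith
  · have h1 : x ^ (-a) ≤ y ^ (-a) := Real.rpow_le_rpow_of_nonpos hy0 h (by linarith)
    have h2 : x ^ (-a) * y ^ (-b) ≤ y ^ (-a) * y ^ (-b) :=
      mul_le_mul_of_nonneg_right h1 (Real.rpow_nonneg hy0.le _)
    have h3 : y ^ (-a) * y ^ (-b) = y ^ (-(a + b)) := by
      rw [← Real.rpow_add hy0]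
      congr 1
      ring
    have h4 := key y hy0 hyR
    have h5 : 0 ≤ R ^ (1 - (a + b)) * x⁻¹ := by positivity
    rw [mul_add]
    linarith

lemma sum_bound {C : ℝ} (hC : ∀ (F : Finset K3) (R : ℝ), 1 ≤ R →
    (∀ l ∈ F, l ≠ 0 ∧ nm l ≤ R) → ∑ l ∈ F, (nm l)⁻¹ ≤ C * R ^ 2) {α a b : ℝ} (h1 : 1 ≤ α)
    (ha : 0 ≤ a) (hb : 0 ≤ b) (hab : a + b = 3 - 2 * α) (p : K3) (hp : p ≠ 0)
    (B : Finset K3) (hB : ∀ l ∈ B, l ≠ 0 ∧ p + l ≠ 0 ∧ nm l ≤ nm p) :
    ∑ l ∈ B, nm l ^ (-a) * nm (p + l) ^ (-b) ≤ 2 * C * 2 ^ (2 * α) * nm p ^ (2 * α) := by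
  classical
  have hp1 := one_le_nm hp
  have hR : (1 : ℝ) ≤ 2 * nm p := by linarith
  have hR0 : (0 : ℝ) < 2 * nm p := by linarith
  have t1 : ∀ l ∈ B, nm l ^ (-a) * nm (p + l) ^ (-b) ≤
      (2 * nm p) ^ (1 - (a + b)) * ((nm l)⁻¹ + (nm (p + l))⁻¹) := by
    intro l hl
    obtain ⟨g1, g2, g3⟩ := hB l hl
    exact term (one_le_nm g1) (one_le_nm g2) (by linarith) (nm_add_le g3) ha hb (by linarith)
  refine (Finset.sum_le_sum t1).trans ?_
  rw [← Finset.mul_sum, Finset.sum_add_distrib]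
  have s1 := hC B (2 * nm p) hR (fun l hl => ⟨(hB l hl).1, by have := (hB l hl).2.2; linarith⟩)
  have s2 := hC (B.image fun l => p + l) (2 * nm p) hR (fun l hl => by
    obtain ⟨l', hl', rfl⟩ := Finset.mem_image.1 hl
    exact ⟨(hB l' hl').2.1, nm_add_le (hB l' hl').2.2⟩)
  rw [Finset.sum_image (fun x _ y _ hxy => add_left_cancel hxy)] at s2
  have s3 : (2 * nm p) ^ (1 - (a + b)) * (∑ l ∈ B, (nm l)⁻¹ + ∑ l ∈ B, (nm (p + l))⁻¹) ≤
      (2 * nm p) ^ (1 - (a + b)) * (2 * C * (2 * nm p) ^ 2) :=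
    mul_le_mul_of_nonneg_left (by linarith) (Real.rpow_nonneg hR0.le _)
  refine s3.trans (le_of_eq ?_)
  have e : (2 * nm p) ^ (1 - (a + b)) * (2 * nm p) ^ 2 = 2 ^ (2 * α) * nm p ^ (2 * α) := by
    rw [← Real.rpow_natCast (2 * nm p) 2, ← Real.rpow_add hR0, hab,
      ← Real.mul_rpow (by norm_num) (nm_nonneg p)]
    congr 1
    push_cast
    ring
  linear_combination (2 * C) * e

/-- finiteness of balls -/
lemma ball_finite (R : ℝ) : {l : K3 | nm l ≤ R}.Finite := by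
  obtain ⟨N, hN⟩ := exists_nat_ge R
  have hf : (Fintype.piFinset fun _ : Fin 3 => Finset.Icc (-(N : ℤ)) N : Finset K3) =
    (Fintype.piFinset fun _ : Fin 3 => Finset.Icc (-(N : ℤ)) N : Finset K3) := rfl
  refine Set.Finite.subset (Finset.finite_toSet
    (Fintype.piFinset fun _ : Fin 3 => Finset.Icc (-(N : ℤ)) N : Finset K3)) ?_
  intro l hl
  rw [Set.mem_ofPred_eq] at hl
  rw [Finset.mem_coe, Fintype.mem_piFinset]
  have h1 : nm l ≤ N := hl.trans hN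
  have h2 : nm l ^ 2 ≤ (N : ℝ) ^ 2 := pow_le_pow_left₀ (nm_nonneg l) h1 2
  rw [nm_sq] at h2
  have h3 : (l 0) ^ 2 + (l 1) ^ 2 + (l 2) ^ 2 ≤ (N : ℤ) ^ 2 := by exact_mod_cast h2
  have hj : ∀ j, (l j) ^ 2 ≤ (N : ℤ) ^ 2 := by
    intro j
    fin_cases j
    · show (l 0) ^ 2 ≤ _
      nlinarith [sq_nonneg (l 0), sq_nonneg (l 1), sq_nonneg (l 2)]
    · show (l 1) ^ 2 ≤ _
      nlinarith [sq_nonneg (l 0), sq_nonneg (l 1), sq_nonneg (l 2)]
    · show (l 2) ^ 2 ≤ _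
      nlinarith [sq_nonneg (l 0), sq_nonneg (l 1), sq_nonneg (l 2)]
  intro j
  rw [Finset.mem_Icc]
  exact abs_le.1 (abs_le_of_sq_le_sq (hj j) (by positivity))

end Pool.Agent.W975.HD
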